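import Pool.Agent.H19.Semi

set_option autoImplicit false

namespace Pool.Agent.Results.MP_4e44b6_al.Traceless

open Pool.Agent.H19.Semi

/-- The trace zero images of semihomogeneous polynomials on real two by two matrices. -/
theorem result (S : Set (Matrix (Fin 2) (Fin 2) ℝ)) (hS : ∀ A ∈ S, A.trace = 0) :
    (∃ (m : ℕ) (p : FreeAlgebra ℝ (Fin m)) (w : Fin m → ℕ) (d : ℕ),
      d ≠ 0 ∧ Semihom w d p ∧ Im p = S) ↔
    S = {0} ∨ S = {A | A.trace = 0} ∨ S = {A | A.trace = 0 ∧ (A.det = 0 → A = 0)} :=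
  cls S hS

end Pool.Agent.Results.MP_4e44b6_al.Traceless
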